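import Pool.Agent.Helper42.PW.Goals3
import Pool.Agent.Helper9.RP.P1
import Pool.Agent.Helper79.RP.HIL
import Pool.Agent.Helper16.RP.LA
import Pool.Agent.Helper94.RP.RAT

/-!
# Project W (MP_fc6b1e_nt): the packet W_P1

Adapted from `Pool/Agent/Helper9/RP/P1.lean`.
-/

set_option autoImplicit false

namespace Pool.Agent.Helper86.PW

open NumberField Polynomial Module IsDedekindDomain TensorProduct Pool.Agent.Helper51.SigLeo
  Pool.Agent.Helper51.RP Pool.Agent.Helper42.PW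

open Pool.Agent.Helper13.RS (bc bc_comp bc_sub bc_id extHom_bc el el_inj el_add el_zero el_nsmul
  el_unitsHom el_sum el_iter iter_add)
open Pool.Agent.Helper9.RP (UU mem_UU mem_UU' fin_UU sum_telescope shift)

theorem w_p1 (h3 : W_HIL) : Pool.Agent.Helper42.PW.W_P1 := by
  intro p _ k _ _ _ _ hι L K M H M₁ H₁ Ω _ _ _ _ _ _ _ _ _ _ _ _ _ _ _ _ _ _ _ _ _ _ m δ γ δ' γ₁ T ε a s
    ζ Φ P hPhi hH hTyp hTor hSel ε' hε' z hzγ hzδ hzL
  have h1 : S_LA := Pool.Agent.Helper16.RP.s_la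
  have h2 : S_RAT := Pool.Agent.Helper94.RP.s_rat
  by_contra hz0
  have hp : p.Prime := Fact.out
  have hchar : CharZero k := charZero_of_injective_algebraMap (algebraMap ℚ_[p] k).injective
  have hγp : γ ^ p = 1 := by rw [← hH.γo]; exact pow_orderOf_eq_one γ
  have hδm : δ' ^ m = 1 := by rw [← hH.δo]; exact pow_orderOf_eq_one δ'
  -- the maps
  have hq : ∀ u : Additive (𝓞 H)ˣ,
      (unitsHom γ - AddMonoidHom.id (Additive (𝓞 H)ˣ)) u ∈ UU p γ := by
    intro u
    rw [AddMonoidHom.sub_apply, AddMonoidHom.id_apply]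
    exact sum_telescope hγp u
  have hcomm : ∀ u : Additive (𝓞 H)ˣ, unitsHom δ' (unitsHom γ u) = unitsHom γ (unitsHom δ' u) := by
    intro u
    apply el_inj
    rw [el_unitsHom, el_unitsHom, el_unitsHom, el_unitsHom, hH.comm]
  have hcommj : ∀ (j : ℕ) (u : Additive (𝓞 H)ˣ),
      unitsHom δ' ((unitsHom γ)^[j] u) = (unitsHom γ)^[j] (unitsHom δ' u) := by
    intro j
    induction j with
    | zero => intro u; rfl
    | succ j ih =>
      intro u
      rw [Function.iterate_succ_apply', hcomm, ih, Function.iterate_succ_apply']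
  have hd : ∀ u : UU p γ, unitsHom δ' (u : Additive (𝓞 H)ˣ) ∈ UU p γ := by
    intro u
    rw [mem_UU]
    simp only [← hcommj]
    rw [← map_sum, mem_UU.1 u.2, map_zero]
  have hg : ∀ u : UU p γ, unitsHom γ (u : Additive (𝓞 H)ˣ) ∈ UU p γ := by
    intro u
    have h4 := (UU p γ).add_mem u.2 (sum_telescope hγp (u : Additive (𝓞 H)ˣ))
    rwa [add_sub_cancel] at h4
  let i : UU p γ →+ Additive (𝓞 H)ˣ := (UU p γ).subtype
  let q : Additive (𝓞 H)ˣ →+ UU p γ :=
    (unitsHom γ - AddMonoidHom.id (Additive (𝓞 H)ˣ)).codRestrict (UU p γ) hq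
  let δU : UU p γ →+ UU p γ := ((unitsHom δ').comp i).codRestrict (UU p γ) hd
  let γU : UU p γ →+ UU p γ := ((unitsHom γ).comp i).codRestrict (UU p γ) hg
  have hiq : i.comp q = unitsHom γ - AddMonoidHom.id (Additive (𝓞 H)ˣ) := rfl
  have hδq : δU.comp q = q.comp (unitsHom δ') := by
    apply DFunLike.ext
    intro u
    apply Subtype.ext
    change unitsHom δ' (unitsHom γ u - u) = unitsHom γ (unitsHom δ' u) - unitsHom δ' u
    rw [map_sub, hcomm]
  have hγq : γU.comp q = q.comp (unitsHom γ) := by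
    apply DFunLike.ext
    intro u
    apply Subtype.ext
    change unitsHom γ (unitsHom γ u - u) = unitsHom γ (unitsHom γ u) - unitsHom γ u
    rw [map_sub]
  have hi2 : bc k i (bc k q z) = (ε' - 1) • z := by
    rw [bc_comp, hiq, bc_sub, bc_id]
    have h4 : bc k (unitsHom γ) z = ε' • z := hzγ
    rw [h4, sub_smul, one_smul]
  have hε1 : ε' - 1 ≠ 0 := sub_ne_zero.2 (hε'.ne_one hp.one_lt)
  have hz' : bc k q z ≠ 0 := by
    intro h4
    rw [h4, map_zero] at hi2
    rcases smul_eq_zero.1 hi2.symm with h5 | h5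
    · exact hε1 h5
    · exact hz0 h5
  have hδz' : extEnd δU (bc k q z) = ζ • bc k q z := by
    have h4 : extEnd δU (bc k q z) = bc k δU (bc k q z) := rfl
    rw [h4, bc_comp, hδq, ← bc_comp]
    have h5 : bc k (unitsHom δ') z = ζ • z := hzδ
    rw [h5, map_smul]
  have hγz' : extEnd γU (bc k q z) = ε' • bc k q z := by
    have h4 : extEnd γU (bc k q z) = bc k γU (bc k q z) := rfl
    rw [h4, bc_comp, hγq, ← bc_comp]
    have h5 : bc k (unitsHom γ) z = ε' • z := hzγ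
    rw [h5, map_smul]
  have hγl : ∀ l : ℕ, (extEnd γU : (k ⊗[ℤ] UU p γ) →ₗ[k] (k ⊗[ℤ] UU p γ))^[l] (bc k q z) =
      ε' ^ l • bc k q z := by
    intro l
    induction l with
    | zero => rw [Function.iterate_zero, id_eq, pow_zero, one_smul]
    | succ l ih => rw [Function.iterate_succ_apply', ih, map_smul, hγz', smul_smul, pow_succ]
  -- iterates
  have hit : ∀ (j : ℕ) (u : UU p γ), ((δU^[j] u : UU p γ) : Additive (𝓞 H)ˣ) =
      (unitsHom δ')^[j] (u : Additive (𝓞 H)ˣ) := by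
    intro j
    induction j with
    | zero => intro u; rfl
    | succ j ih =>
      intro u
      rw [Function.iterate_succ_apply', Function.iterate_succ_apply', ← ih]
      rfl
  have hitγ : ∀ (j : ℕ) (u : UU p γ), ((γU^[j] u : UU p γ) : Additive (𝓞 H)ˣ) =
      (unitsHom γ)^[j] (u : Additive (𝓞 H)ˣ) := by
    intro j
    induction j with
    | zero => intro u; rfl
    | succ j ih =>
      intro u
      rw [Function.iterate_succ_apply', Function.iterate_succ_apply', ← ih]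
      rfl
  have hδUm : ∀ u : UU p γ, δU^[m] u = u := by
    intro u
    apply Subtype.ext
    rw [hit]
    apply el_inj
    rw [el_iter, hδm, AlgEquiv.one_apply]
  have hcU : ∀ u : UU p γ, δU (γU u) = γU (δU u) := by
    intro u
    apply Subtype.ext
    exact hcomm _
  have hsumU : ∀ u : UU p γ, ∑ j ∈ Finset.range p, γU^[j] u = 0 := by
    intro u
    apply Subtype.ext
    rw [AddSubgroup.val_finsetSum]
    simp only [hitγ]
    exact mem_UU.1 u.2
  obtain ⟨i₀, hi₀, htor⟩ := hTor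
  have hppow : ∀ (u : UU p γ) (n : ℕ), p ^ n • u = 0 → δU u = i₀ • u := by
    intro u n hu
    apply Subtype.ext
    apply el_inj
    rw [AddSubgroup.coe_nsmul, el_nsmul]
    change el (unitsHom δ' (u : Additive (𝓞 H)ˣ)) = _
    rw [el_unitsHom]
    apply htor _ n
    rw [← el_nsmul]
    have h4 := congrArg (Subtype.val) hu
    rw [AddSubgroup.coe_nsmul, AddSubgroup.coe_zero] at h4
    rw [h4, el_zero]
  -- rationality
  have hcl : PlaceClosed (above (above T : Set (M →+* k)) : Set (H →+* k)) := by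
    intro σ τ hστ
    apply hH.closed
    intro x
    exact hστ _
  obtain ⟨n, f, hf0, hfc⟩ := h2 p k hι L H _ hcl
  have hf0z := hf0 z hzL
  have hfin := fin_UU p γ
  obtain ⟨u, hu1, hu2, hu3, hu4⟩ := h1 p k m ζ Φ P hPhi (UU p γ) δU γU i₀ hδUm hcU hsumU hppow hi₀
    (Fin n) (fun j => (f j).comp i) (bc k q z) hz' hδz' (by
      intro j l
      rw [hγl, map_smul]
      have h4 := extHom_bc (k := k) i
        (((algebraMap ℚ_[p] k : ℚ_[p] →+* k) : ℚ_[p] →+ k).comp (f j)) (bc k q z)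
      rw [hi2, map_smul, hf0z j, smul_zero] at h4
      have h5 : extHom (((algebraMap ℚ_[p] k : ℚ_[p] →+* k) : ℚ_[p] →+ k).comp ((f j).comp i))
          (bc k q z) = 0 := h4.symm
      rw [h5, smul_zero])
  -- the constant
  have hfinE : Finite (H →+* k) := by
    have : Finite (H →ₐ[ℚ] k) := inferInstance
    exact Finite.of_injective (fun f : H →+* k => f.toRatAlgHom) (fun f g h => by
      ext x; exact DFunLike.congr_fun h x)
  have hp1 : (1 : ℝ) < p := by exact_mod_cast hp.one_lt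
  have hp0 : (p : ℝ) ≠ 0 := by positivity
  choose! C hC using hfc
  obtain ⟨c, hc⟩ : ∃ c : ℕ, ∀ τ : H →+* k, ∑ j, ‖C τ j‖ ≤ (p : ℝ) ^ c := by
    have : Fintype (H →+* k) := Fintype.ofFinite _
    obtain ⟨c, hc⟩ := pow_unbounded_of_one_lt (∑ τ : H →+* k, ∑ j, ‖C τ j‖) hp1
    refine ⟨c, fun τ => le_trans ?_ hc.le⟩
    exact Finset.single_le_sum (f := fun τ : H →+* k => ∑ j, ‖C τ j‖)
      (fun _ _ => Finset.sum_nonneg fun _ _ => norm_nonneg _) (Finset.mem_univ τ)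
  obtain ⟨hv1, hv2, hv3⟩ := shift δU γU hcU P.support (fun j => (P.coeff j).val) u hu1 hu2 hu3 c
  set v : ℕ → (𝓞 H)ˣ := fun N => ((u (N + c) : UU p γ) : Additive (𝓞 H)ˣ).toMul with hv
  have hvn : ∀ N, ∏ j ∈ Finset.range p, (γ ^ j) (v N : H) = 1 := fun N => mem_UU'.1 (u (N + c)).2
  have hvc : ∀ N, ∃ b : (𝓞 H)ˣ, ∏ j ∈ Finset.range p, (γ ^ j) (b : H) = 1 ∧
      (v N : H) * b = v 0 * γ (b : H) := by
    intro N
    obtain ⟨b, hb⟩ := hv1 N
    refine ⟨(b : Additive (𝓞 H)ˣ).toMul, mem_UU'.1 b.2, ?_⟩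
    have h5 := congrArg (fun v : UU p γ => el (v : Additive (𝓞 H)ˣ)) hb
    beta_reduce at h5
    rw [AddSubgroup.coe_add, AddSubgroup.coe_add, el_add, el_add] at h5
    exact h5
  have hvp : ∃ b : (𝓞 H)ˣ, ∏ j ∈ Finset.range p, (γ ^ j) (b : H) = 1 ∧
      (∏ j ∈ P.support, ((δ' ^ j) (v 0 : H)) ^ (P.coeff j).val) * b = γ (b : H) := by
    obtain ⟨b, hb⟩ := hv3
    refine ⟨(b : Additive (𝓞 H)ˣ).toMul, mem_UU'.1 b.2, ?_⟩
    have h5 := congrArg (fun v : UU p γ => el (v : Additive (𝓞 H)ˣ)) hb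
    beta_reduce at h5
    rw [AddSubgroup.coe_add, el_add, AddSubgroup.val_finsetSum, el_sum] at h5
    simp only [AddSubgroup.coe_nsmul, el_nsmul, hit, el_iter] at h5
    exact h5
  have hvs : ∀ N l, ∀ τ ∈ (above (above T : Set (M →+* k)) : Set (H →+* k)),
      ‖logUnits L τ ((unitsHom γ)^[l] (Additive.ofMul (v N)))‖ ≤ (1 / p : ℝ) ^ N := by
    intro N l τ hτ
    have h4 := hC τ hτ ((unitsHom γ)^[l] ((u (N + c) : UU p γ) : Additive (𝓞 H)ˣ))
    change ‖logUnits L τ ((unitsHom γ)^[l] ((u (N + c) : UU p γ) : Additive (𝓞 H)ˣ))‖ ≤ _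
    rw [h4]
    have h6 : ∀ j, ‖f j ((unitsHom γ)^[l] ((u (N + c) : UU p γ) : Additive (𝓞 H)ˣ))‖ ≤
        (1 / p : ℝ) ^ (N + c) := by
      intro j
      rw [← hitγ]
      exact hu4 (N + c) j l
    calc ‖∑ j, f j ((unitsHom γ)^[l] ((u (N + c) : UU p γ) : Additive (𝓞 H)ˣ)) • C τ j‖
        ≤ ∑ j, ‖f j ((unitsHom γ)^[l] ((u (N + c) : UU p γ) : Additive (𝓞 H)ˣ)) • C τ j‖ :=
          norm_sum_le _ _
      _ ≤ ∑ j, (1 / p : ℝ) ^ (N + c) * ‖C τ j‖ := by
          apply Finset.sum_le_sum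
          intro j _
          rw [norm_smul]
          exact mul_le_mul_of_nonneg_right (h6 j) (norm_nonneg _)
      _ = (1 / p : ℝ) ^ (N + c) * ∑ j, ‖C τ j‖ := by rw [Finset.mul_sum]
      _ ≤ (1 / p : ℝ) ^ (N + c) * (p : ℝ) ^ c := by
          exact mul_le_mul_of_nonneg_left (hc τ) (by positivity)
      _ = (1 / p : ℝ) ^ N := by
          rw [pow_add, mul_assoc, ← mul_pow, one_div_mul_cancel hp0, one_pow, mul_one]
  have hγ1 : γ ≠ 1 := by
    intro h
    have := hH.γo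
    rw [h, orderOf_one] at this
    exact hp.one_lt.ne this
  obtain ⟨y, hy0, hy⟩ := Pool.Agent.Helper79.RP.hilbert90 hp.pos γ hH.γo (hvn 0)
  obtain ⟨x, hx⟩ := Pool.Agent.Helper79.RP.fix_mem hp γ hH.γM hH.degH hγ1
    (Pool.Agent.Helper79.RP.nrm_fix hγp y)
  have hx0 : x ≠ 0 := by
    rintro rfl
    rw [map_zero] at hx
    exact Finset.prod_ne_zero_iff.2 (fun j _ => (_root_.map_ne_zero (γ ^ j)).2 hy0) hx.symm
  have hpol : Pw p (pol P δ (Units.mk0 x hx0)) := by
    obtain ⟨b, hb1, hb2⟩ := hvp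
    exact Pool.Agent.Helper79.RP.polpart hp P hH.γM hH.degH hH.γo hH.δM hH.comm hy0
      (RingOfIntegers.coe_ne_zero_iff.2 b.ne_zero) hy (x := Units.mk0 x hx0) hx hb1 hb2
  obtain ⟨w1, w2⟩ := h3 p k hι L K M H M₁ H₁ Ω m δ γ δ' γ₁ T ε a s P hPhi.irr hH hTyp v hvn hvc hvs
    (Units.mk0 y hy0) (Units.mk0 x hx0) hy hx hpol
  obtain ⟨t, ht1, ht2⟩ := Pool.Agent.Helper79.RP.pthpow hp hH.γM (v 0) hy0 hy
    (x := Units.mk0 x hx0) hx (hSel (Units.mk0 x hx0) ⟨hpol, w1, w2⟩)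
  apply hv2
  have ht : Additive.ofMul t ∈ UU p γ := mem_UU'.2 ht1
  refine ⟨⟨Additive.ofMul t, ht⟩, ?_⟩
  apply Subtype.ext
  apply el_inj
  rw [AddSubgroup.coe_add, el_add]
  exact ht2

end Pool.Agent.Helper86.PW
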